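import Pool.Agent.W223.PL.Stms

set_option autoImplicit false

namespace Pool.Agent.W349.PL.BEZ

open Polynomial

theorem entry (A B : ℤ[X]) (m n : ℕ) (H : ℝ) (hH : 1 ≤ H) (hA : ∀ k, |(A.coeff k : ℝ)| ≤ H)
    (hB : ∀ k, |(B.coeff k : ℝ)| ≤ H) (i j : Fin (m + n)) :
    |((sylvester A B m n i j : ℤ) : ℝ)| ≤ H := by
  have h0 : (0 : ℝ) ≤ H := by linarith
  unfold sylvester
  rw [Matrix.of_apply]
  induction j using Fin.addCases with
  | left j =>
    rw [Fin.addCases_left]
    split_ifs
    · exact hB _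
    · simpa using h0
  | right j =>
    rw [Fin.addCases_right]
    split_ifs
    · exact hA _
    · simpa using h0

theorem resbound (A B : ℤ[X]) (m n : ℕ) (H : ℝ) (hH : 1 ≤ H) (hA : ∀ k, |(A.coeff k : ℝ)| ≤ H)
    (hB : ∀ k, |(B.coeff k : ℝ)| ≤ H) :
    |((resultant A B m n : ℤ) : ℝ)| ≤ ((m + n).factorial : ℝ) * H ^ (m + n) := by
  have h1 : ((resultant A B m n : ℤ) : ℝ) =
      Matrix.det ((sylvester A B m n).map (Int.castRingHom ℝ)) := by
    unfold resultant
    exact (Int.castRingHom ℝ).map_det _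
  rw [h1]
  have h2 := Matrix.det_le (A := (sylvester A B m n).map (Int.castRingHom ℝ))
    (abv := AbsoluteValue.abs) (x := H) (fun i j => entry A B m n H hH hA hB i j)
  simpa using h2

theorem t : Pool.Agent.W223.PL.StmtBEZ := by
  intro n A B H hH hAn hBn hA hB hcop
  have h0 : (0 : ℝ) < H := by linarith
  have hn0 : (0 : ℝ) ≤ n := Nat.cast_nonneg n
  have hbase : 1 ≤ (2 * (n : ℝ) + 2) * H := by nlinarith
  have hHle : H ≤ ((2 * (n : ℝ) + 2) * H) ^ (2 * n + 2) := by
    have h1 : H ≤ (2 * (n : ℝ) + 2) * H := by nlinarith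
    exact h1.trans (le_self_pow₀ hbase (by omega))
  by_cases hz : A.natDegree = 0 ∧ B.natDegree = 0
  · obtain ⟨ha, hb⟩ := hz
    have hA' := eq_C_of_natDegree_eq_zero ha
    have hB' := eq_C_of_natDegree_eq_zero hb
    by_cases hA0 : A.coeff 0 = 0
    · refine ⟨0, 1, B.coeff 0, ?_, ?_, (hB 0).trans hHle⟩
      · intro hB0
        rw [hA', hB', hA0, hB0] at hcop
        simp only [map_zero, Polynomial.map_zero] at hcop
        exact not_isCoprime_zero_zero hcop
      · rw [zero_mul, zero_add, one_mul]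
        exact hB'
    · refine ⟨1, 0, A.coeff 0, hA0, ?_, (hA 0).trans hHle⟩
      rw [zero_mul, add_zero, one_mul]
      exact hA'
  · have hne : A.natDegree ≠ 0 ∨ B.natDegree ≠ 0 := by
      by_contra hc
      push Not at hc
      exact hz hc
    obtain ⟨p, q, -, -, hpq⟩ := exists_mul_add_mul_eq_C_resultant A B
      (m := A.natDegree) (n := B.natDegree) le_rfl le_rfl hne
    refine ⟨p, q, resultant A B, ?_, ?_, ?_⟩
    · intro hR
      have h1 := resultant_ne_zero _ _ hcop
      apply h1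
      have hinj : Function.Injective (Int.castRingHom ℚ) := Int.cast_injective
      rw [natDegree_map_eq_of_injective hinj, natDegree_map_eq_of_injective hinj,
        resultant_map_map, hR, map_zero]
    · rw [mul_comm p, mul_comm q]
      exact hpq
    · refine (resbound A B _ _ H hH hA hB).trans ?_
      set N := A.natDegree + B.natDegree with hN
      have hN2 : N ≤ 2 * n := by omega
      have h1 : ((N.factorial : ℕ) : ℝ) ≤ (2 * (n : ℝ) + 2) ^ N := by
        have h2 : ((N.factorial : ℕ) : ℝ) ≤ (N : ℝ) ^ N := by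
          exact_mod_cast Nat.factorial_le_pow N
        refine h2.trans (pow_le_pow_left₀ (Nat.cast_nonneg N) ?_ N)
        have h3 : (N : ℝ) ≤ 2 * n := by exact_mod_cast hN2
        linarith
      calc ((N.factorial : ℕ) : ℝ) * H ^ N ≤ (2 * (n : ℝ) + 2) ^ N * H ^ N :=
            mul_le_mul_of_nonneg_right h1 (by positivity)
        _ = ((2 * (n : ℝ) + 2) * H) ^ N := by rw [mul_pow]
        _ ≤ ((2 * (n : ℝ) + 2) * H) ^ (2 * n + 2) :=
            pow_le_pow_right₀ hbase (by omega)

end Pool.Agent.W349.PL.BEZ
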